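import Pool.Agent.MP_cce4c9_lc.H7.BaseA

/-! The number of zeros of a function, and the degree of a principal divisor. -/

set_option autoImplicit false

open WithZero Finsupp Module
open scoped IntermediateField

namespace Pool.Agent.MP_cce4c9_lc.H52

open Pool.Agent.MP_cce4c9_lc.H87 Pool.Agent.MP_cce4c9_lc.H7

variable {k K : Type} [Field k] [Field K] [Algebra k K]

/-- The sum of the orders at finitely many zeros is at most the degree. -/
theorem sum_ord_le {s : K} (hs : s ≠ 0) [FiniteDimensional k⟮s⟯ K] (S : Finset (Place k K))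
    (hS : ∀ v ∈ S, 0 < v.ord s) : ∑ v ∈ S, v.ord s ≤ (finrank k⟮s⟯ K : ℤ) := by
  classical
  let T : Finset (Σ _ : Place k K, ℕ) := S.sigma fun v => Finset.range (v.ord s).toNat
  have hT : ∀ j : T, j.1.1 ∈ S ∧ (j.1.2 : ℤ) < j.1.1.ord s := fun j => by
    have h := Finset.mem_sigma.1 j.2
    have h2 := Finset.mem_range.1 h.2
    exact ⟨h.1, by omega⟩
  choose z hz0 hz using fun j : T =>
    apx_ord S fun v => if v = j.1.1 then (j.1.2 : ℤ) else v.ord s
  have hP' : ∀ c : k⟮s⟯, c ≠ 0 → ∃ m : ℤ, ∀ v ∈ S, v.ord (algebraMap k⟮s⟯ K c) = m * v.ord s :=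
    fun c hc => by
      obtain ⟨m, hm⟩ := Place.val_adjoin hs c.2 (by simpa using hc)
      refine ⟨m, fun v hv => ?_⟩
      have h1 := hm v ((v.val_lt_one (v.val_ne hs)).2 (hS v hv))
      rw [← v.ord_zpow, Place.ord, Place.ord, map_zpow₀, ← h1]
      rfl
  have hli : LinearIndependent k⟮s⟯ z := by
    rw [Fintype.linearIndependent_iff]
    intro g hg
    by_contra hne
    push Not at hne
    choose! m hm using hP'
    obtain ⟨i, hi, hmin⟩ := Finset.exists_min_image (Finset.univ.filter fun i => g i ≠ 0)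
      (fun i => toLex (m (g i), i.1.2)) (by obtain ⟨i, hi⟩ := hne; exact ⟨i, by simpa using hi⟩)
    have hi0 : g i ≠ 0 := by simpa using hi
    have hv := (hT i).1
    have hne0 : ∀ j, g j ≠ 0 → g j • z j ≠ 0 := fun j hj => smul_ne_zero hj (hz0 j)
    have ho : ∀ j, g j ≠ 0 → i.1.1.ord (g j • z j) = m (g j) * i.1.1.ord s +
        if i.1.1 = j.1.1 then (j.1.2 : ℤ) else i.1.1.ord s := fun j hj => by
      rw [Algebra.smul_def, Place.ord_mul' _ (by simpa using hj) (hz0 j), hm _ hj _ hv, hz j _ hv]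
    have h2 : i.1.1.val (∑ j ∈ Finset.univ.erase i, g j • z j) < i.1.1.val (g i • z i) := by
      refine i.1.1.val.map_sum_lt (i.1.1.val_ne (hne0 i hi0)) fun j hj => ?_
      by_cases hj0 : g j = 0
      · rw [hj0, zero_smul, map_zero]
        exact zero_lt_iff.2 (i.1.1.val_ne (hne0 i hi0))
      have hji : j ≠ i := Finset.ne_of_mem_erase hj
      rw [i.1.1.val_eq (i.1.1.val_ne (hne0 i hi0)),
        i.1.1.val_lt_exp (i.1.1.val_ne (hne0 j hj0)), neg_neg, ho i hi0, ho j hj0, if_pos rfl]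
      have h3 := hmin j (by simpa using hj0)
      rw [Prod.Lex.toLex_le_toLex] at h3
      have h4 := (hT i).2
      have h5 := hS _ hv
      have h6 : (0 : ℤ) ≤ j.1.2 := Int.natCast_nonneg _
      rcases h3 with h3 | ⟨h3, h7⟩
      · have h8 : (m (g i) + 1) * i.1.1.ord s ≤ m (g j) * i.1.1.ord s :=
          mul_le_mul_of_nonneg_right h3 h5.le
        split_ifs <;> linarith
      · dsimp only at h3 h7
        rw [h3]
        split_ifs with h9
        · have : i.1.2 ≠ j.1.2 := fun e => hji (Subtype.ext (Sigma.ext h9.symm (heq_of_eq e.symm)))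
          omega
        · omega
    rw [← Finset.add_sum_erase _ _ (Finset.mem_univ i), add_eq_zero_iff_eq_neg] at hg
    rw [hg, Valuation.map_neg] at h2
    exact lt_irrefl _ h2
  have h1 := hli.fintype_card_le_finrank
  rw [Fintype.card_coe, Finset.card_sigma] at h1
  refine le_trans (le_of_eq ?_) (Int.ofNat_le.2 h1)
  rw [Nat.cast_sum]
  refine Finset.sum_congr rfl fun v hv => ?_
  rw [Finset.card_range, Int.toNat_of_nonneg (hS v hv).le]

theorem degree_nonneg {D : Dv k K} (hD : 0 ≤ D) : 0 ≤ D.degree :=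
  Finset.sum_nonneg fun v _ => hD v

variable [IsAlgClosed k]

theorem finrank_LL_le (hL : StmtLL) (hK : IsFF k K) (n : ℕ) :
    ∀ D : Dv k K, 0 ≤ D → D.degree = n → finrank k (LL D) ≤ n + 1 := by
  obtain ⟨h1, h2, h3, -⟩ := hL k K hK
  have h0 : finrank k (LL (0 : Dv k K)) ≤ 1 := by
    have : LL (0 : Dv k K) ≤ Submodule.span k {(1 : K)} := fun h hh => by
      obtain ⟨c, rfl⟩ := h3 h hh
      exact Submodule.mem_span_singleton.2 ⟨c, (Algebra.algebraMap_eq_smul_one c).symm⟩
    exact (Submodule.finrank_mono this).trans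
      (finrank_span_singleton (K := k) (one_ne_zero (α := K))).le
  have key : ∀ D : Dv k K, 0 ≤ D → D ≠ 0 → ∃ (v : Place k K) (E : Dv k K), 0 ≤ E ∧
      D = E + single v 1 ∧ D.degree = E.degree + 1 := fun D hD hne => by
    classical
    obtain ⟨v, hv⟩ := Finsupp.support_nonempty_iff.2 hne
    have hv' : D v ≠ 0 := Finsupp.mem_support_iff.1 hv
    refine ⟨v, D - single v 1, fun w => ?_, by abel, by rw [map_sub, degree_single]; ring⟩
    have h4 : 0 ≤ D w := hD w
    rw [Finsupp.coe_sub, Pi.sub_apply, single_apply]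
    show (0 : ℤ) ≤ _
    split_ifs with e
    · subst e; omega
    · omega
  induction n with
  | zero =>
    intro D hD hd
    by_cases hne : D = 0
    · rw [hne]; exact h0
    · obtain ⟨v, E, hE, -, e⟩ := key D hD hne
      have := degree_nonneg hE
      omega
  | succ n ih =>
    intro D hD hd
    by_cases hne : D = 0
    · rw [hne]; omega
    · obtain ⟨v, E, hE, rfl, e⟩ := key D hD hne
      have := ih E hE (by omega)
      have := h2 E v
      omega

theorem mem_LL_zeros (hK : IsFF k K) (h : K) : h⁻¹ ∈ LL (dv k h ⊔ 0) := fun v => by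
  by_cases h0 : h = 0
  · simp [h0]
  rw [v.val_le_exp (v.val_ne (inv_ne_zero h0)), v.ord_inv, Finsupp.sup_apply,
    dv_apply (fins hK h), neg_le_neg_iff]
  exact le_sup_left

omit [IsAlgClosed k] in
theorem mul_mem_LL {D E : Dv k K} {a b : K} (ha : a ∈ LL D) (hb : b ∈ LL E) :
    a * b ∈ LL (D + E) := fun v => by
  rw [map_mul, Finsupp.add_apply, exp_add]
  exact mul_le_mul' (ha v) (hb v)

omit [IsAlgClosed k] in
theorem pow_mem_LL {D : Dv k K} {a : K} (ha : a ∈ LL D) (n : ℕ) : a ^ n ∈ LL (n • D) := by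
  induction n with
  | zero => intro v; simp
  | succ n ih => rw [pow_succ, succ_nsmul]; exact mul_mem_LL ih ha

omit [IsAlgClosed k] in
theorem LL_mono {D D' : Dv k K} (h : D ≤ D') : LL D ≤ LL D' := fun _ hx v =>
  (hx v).trans (exp_le_exp.2 (h v))

omit [IsAlgClosed k] in
theorem li_pow {u : K} (hu : Transcendental k u) : LinearIndependent k fun j : ℕ => u ^ j := by
  have h := (Polynomial.basisMonomials k).linearIndependent.map'
    (Polynomial.aeval u).toLinearMap
    (LinearMap.ker_eq_bot.2 (transcendental_iff_injective.1 hu))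
  have e : (⇑(Polynomial.aeval u).toLinearMap ∘ ⇑(Polynomial.basisMonomials k)) =
      fun j : ℕ => u ^ j := funext fun j => by simp
  rwa [e] at h

omit [IsAlgClosed k] in
theorem inv_nonconst {s : K} (hs : s ∉ Set.range (algebraMap k K)) :
    s⁻¹ ∉ Set.range (algebraMap k K) := by
  rintro ⟨c, e⟩
  exact hs ⟨c⁻¹, by rw [map_inv₀, e, inv_inv]⟩

theorem le_zeros (hL : StmtLL) (hK : IsFF k K) {s : K} (hs : s ∉ Set.range (algebraMap k K)) :
    (finrank k⟮s⟯ K : ℤ) ≤ (dv k s ⊔ 0).degree := by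
  have := hK.fd hs
  have hfin := (hL k K hK).1
  let b := Module.finBasis k⟮s⟯ K
  let B : Dv k K := dv k s ⊔ 0
  let C : Dv k K := ∑ i, dv k (b i)⁻¹ ⊔ 0
  have hB : 0 ≤ B := le_sup_right
  have hC : 0 ≤ C := Finset.sum_nonneg fun i _ => le_sup_right
  have hb : ∀ i, b i ∈ LL C := fun i => by
    have h1 := mem_LL_zeros hK (b i)⁻¹
    rw [inv_inv] at h1
    exact LL_mono (Finset.single_le_sum (f := fun i => dv k (b i)⁻¹ ⊔ 0)
      (fun i _ => le_sup_right) (Finset.mem_univ i)) h1
  let u : k⟮s⟯ := ⟨s⁻¹, inv_mem (IntermediateField.mem_adjoin_simple_self k s)⟩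
  have hu : LinearIndependent k fun j : ℕ => u ^ j :=
    LinearIndependent.of_comp k⟮s⟯.val.toLinearMap (li_pow (hK.transc (inv_nonconst hs)))
  have key : ∀ r : ℕ, ((r + 1 : ℕ) : ℤ) * finrank k⟮s⟯ K ≤ r * B.degree + C.degree + 1 := by
    intro r
    have h1 := linearIndependent_smul (hu.comp (fun j : Fin (r + 1) => (j : ℕ)) Fin.val_injective)
      b.linearIndependent
    have h2 : ∀ p : Fin (r + 1) × Fin (finrank k⟮s⟯ K), (u ^ (p.1 : ℕ)) • b p.2 ∈ LL (r • B + C) :=
      fun p => LL_mono (add_le_add_left (nsmul_le_nsmul_left hB (Nat.lt_succ_iff.1 p.1.2)) C)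
        (mul_mem_LL (pow_mem_LL (mem_LL_zeros hK s) p.1) (hb p.2))
    have h3 : LinearIndependent k fun p => (⟨_, h2 p⟩ : LL (r • B + C)) :=
      LinearIndependent.of_comp (LL (r • B + C)).subtype h1
    have h4 := h3.fintype_card_le_finrank
    rw [Fintype.card_prod, Fintype.card_fin, Fintype.card_fin] at h4
    have h5 : 0 ≤ r • B + C := add_nonneg (nsmul_nonneg hB r) hC
    obtain ⟨n, hn⟩ := Int.eq_ofNat_of_zero_le (degree_nonneg h5)
    have h6 := finrank_LL_le hL hK n _ h5 hn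
    rw [map_add, map_nsmul, nsmul_eq_mul] at hn
    rw [hn]
    exact_mod_cast h4.trans h6
  by_contra hlt
  obtain ⟨c, hc⟩ := Int.eq_ofNat_of_zero_le (degree_nonneg hC)
  have h1 := key (c + 2)
  have h2 : B.degree + 1 ≤ finrank k⟮s⟯ K := not_le.1 hlt
  have h3 := degree_nonneg hB
  rw [hc] at h1
  push_cast at h1
  nlinarith

theorem zeros_eq (hL : StmtLL) (hK : IsFF k K) {s : K} (hs : s ∉ Set.range (algebraMap k K)) :
    (dv k s ⊔ 0).degree = (finrank k⟮s⟯ K : ℤ) := by
  refine le_antisymm ?_ (le_zeros hL hK hs)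
  have := hK.fd hs
  have h0 : s ≠ 0 := fun e => hs ⟨0, by simp [e]⟩
  have h1 : ∀ v ∈ (dv k s ⊔ 0).support, 0 < v.ord s := fun v hv => by
    rw [Finsupp.mem_support_iff, Finsupp.sup_apply, dv_apply (fins hK s)] at hv
    exact not_le.1 fun h => hv (sup_eq_right.2 h)
  refine le_trans (le_of_eq ?_) (sum_ord_le h0 _ h1)
  rw [degree_apply]
  refine Finset.sum_congr rfl fun v hv => ?_
  rw [Finsupp.sup_apply, dv_apply (fins hK s)]
  exact sup_eq_left.2 (h1 v hv).le

omit [IsAlgClosed k] in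
theorem adjoin_inv (s : K) : k⟮s⁻¹⟯ = k⟮s⟯ := by
  refine le_antisymm ?_ ?_ <;> rw [IntermediateField.adjoin_simple_le_iff]
  · exact inv_mem (IntermediateField.mem_adjoin_simple_self k s)
  · simpa using inv_mem (IntermediateField.mem_adjoin_simple_self k s⁻¹)

theorem degree_dv (hL : StmtLL) (hK : IsFF k K) (h : K) : (dv k h).degree = 0 := by
  by_cases hc : h ∈ Set.range (algebraMap k K)
  · obtain ⟨c, rfl⟩ := hc
    have : dv k (algebraMap k K c) = 0 := by
      ext v
      rw [dv_apply (fins hK _), v.ord_const]; rfl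
    rw [this, map_zero]
  have h1 := zeros_eq hL hK hc
  have h2 := zeros_eq hL hK (inv_nonconst hc)
  rw [adjoin_inv] at h2
  have h3 : dv k h = (dv k h ⊔ 0) - (dv k h⁻¹ ⊔ 0) := by
    ext v
    rw [Finsupp.sub_apply, Finsupp.sup_apply, Finsupp.sup_apply, dv_apply (fins hK _),
      dv_apply (fins hK _), v.ord_inv]
    show _ = max _ 0 - max _ 0
    omega
  rw [h3, map_sub, h1, h2, sub_self]

theorem deg (hL : StmtLL) : StmtDEG := fun _ _ _ _ _ _ hK =>
  ⟨fun _ hs => zeros_eq hL hK hs, degree_dv hL hK⟩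

end Pool.Agent.MP_cce4c9_lc.H52
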